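import Pool.Agent.Lib.PL87.Main

namespace Pool.Agent.Results.MP_5f81cf_ag.Literal

open AlgebraicGeometry CategoryTheory Pool.Agent.Lib.PL87

theorem result (k : Type) [Field k] [IsAlgClosed k] (p : ℕ) [Fact p.Prime] [CharP k p] (hp : p ≠ 2)
    (X : Scheme.{0}) [IsIntegral X] [IsLocallyNoetherian X] (π : X ⟶ Spec (.of k))
    (hdim : topologicalKrullDim X = 3) (Δ : X → ℚ) (hΔ : IsPlt π Δ)
    (S : Scheme.{0}) [IsIntegral S] (ι : S ⟶ X) [IsClosedImmersion ι]
    (hS : Δ (ι (genericPoint S)) = 1) : IsNormalVariety (ι ≫ π) :=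
  main hp hdim hΔ ι hS

end Pool.Agent.Results.MP_5f81cf_ag.Literal
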